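import Pool.Agent.K9h60.SC.Cls
import Pool.Agent.Results.MP_b5e4d4_co.SubgroupFormula

/-!
# Digraphs fixed by one or two anti-automorphisms (helper60)
-/

set_option autoImplicit false

open Finset

namespace Pool.Agent.K9h60.SC

open Pool.Agent.Results.MP_b5e4d4_co.SubgroupFormula (Arc LDigraph SelfConverse s)

variable {p : ℕ}

/-- `(u, v) ↦ (σ v, σ u)` -/
def Phi (σ : Equiv.Perm (Fin p)) (e : Arc p) : Arc p :=
  ⟨(σ e.1.2, σ e.1.1), fun h => e.2 (σ.injective h).symm⟩

lemma Phi_inj (σ : Equiv.Perm (Fin p)) {e e' : Arc p} (h : Phi σ e = Phi σ e') : e = e' := by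
  have h1 : σ e.1.2 = σ e'.1.2 := congrArg (fun x : Arc p => x.1.1) h
  have h2 : σ e.1.1 = σ e'.1.1 := congrArg (fun x : Arc p => x.1.2) h
  exact Subtype.ext (Prod.ext (σ.injective h2) (σ.injective h1))

lemma Phi_Phi (σ : Equiv.Perm (Fin p)) (e : Arc p) :
    (Phi σ (Phi σ e)).1 = (σ (σ e.1.1), σ (σ e.1.2)) := rfl

lemma Phi_inv {σ : Equiv.Perm (Fin p)} (h : ∀ x, σ (σ x) = x) (e : Arc p) : Phi σ (Phi σ e) = e := by
  apply Subtype.ext
  rw [Phi_Phi, h, h]

open Classical in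
/-- the digraphs with the anti-automorphism `σ` -/
noncomputable def F (σ : Equiv.Perm (Fin p)) : Finset (Arc p → Bool) :=
  univ.filter fun c => ∀ e, c (Phi σ e) = c e

lemma mem_F {σ : Equiv.Perm (Fin p)} {c : Arc p → Bool} : c ∈ F σ ↔ ∀ e, c (Phi σ e) = c e := by
  unfold F
  simp

open Classical in
/-- the arcs fixed by `Phi σ` -/
noncomputable def FA (σ : Equiv.Perm (Fin p)) : Finset (Arc p) := univ.filter fun e => Phi σ e = e

lemma mem_FA {σ : Equiv.Perm (Fin p)} {e : Arc p} : e ∈ FA σ ↔ Phi σ e = e := by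
  unfold FA
  simp

lemma FA_le (σ : Equiv.Perm (Fin p)) : (FA σ).card ≤ p := by
  have h : (FA σ).card ≤ (univ : Finset (Fin p)).card := by
    refine card_le_card_of_injOn (fun e => e.1.1) (fun e _ => mem_univ _) ?_
    intro e he e' he' h
    have h1 := mem_FA.1 he
    have h2 := mem_FA.1 he'
    have g1 : σ e.1.1 = e.1.2 := congrArg (fun x : Arc p => x.1.2) h1
    have g2 : σ e'.1.1 = e'.1.2 := congrArg (fun x : Arc p => x.1.2) h2
    have h' : e.1.1 = e'.1.1 := h
    exact Subtype.ext (Prod.ext h' (by rw [← g1, ← g2, h']))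
  rwa [card_univ, Fintype.card_fin] at h

open Classical in
lemma arcs_in (T : Finset (Fin p)) :
    (univ.filter (fun e : Arc p => e.1.1 ∈ T ∧ e.1.2 ∈ T)).card = T.card * T.card - T.card := by
  rw [← offDiag_card]
  refine card_bij (fun e _ => e.1) ?_ ?_ ?_
  · intro e he
    obtain ⟨h1, h2⟩ := (mem_filter.1 he).2
    exact mem_offDiag.2 ⟨h1, h2, e.2⟩
  · intro e _ e' _ h
    exact Subtype.ext h
  · intro x hx
    obtain ⟨h1, h2, h3⟩ := mem_offDiag.1 hx
    exact ⟨⟨x, h3⟩, mem_filter.2 ⟨mem_univ _, h1, h2⟩, rfl⟩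

lemma card_Arc : Fintype.card (Arc p) = p * p - p := by
  classical
  have h := arcs_in (univ : Finset (Fin p))
  simp only [mem_univ, and_self, filter_true, card_univ, Fintype.card_fin] at h
  exact h

open Classical in
/-- the arcs which meet the set `M` -/
lemma arcs_meet (M : Finset (Fin p)) :
    ((univ.filter (fun e : Arc p => e.1.1 ∈ M ∨ e.1.2 ∈ M)).card : ℤ) =
      M.card * (2 * p - M.card - 1) := by
  have h1 := arcs_in (Mᶜ)
  have h2 : (univ.filter (fun e : Arc p => e.1.1 ∈ M ∨ e.1.2 ∈ M)).card +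
      (univ.filter (fun e : Arc p => e.1.1 ∈ Mᶜ ∧ e.1.2 ∈ Mᶜ)).card = Fintype.card (Arc p) := by
    rw [← card_univ, ← card_filter_add_card_filter_not (s := (univ : Finset (Arc p)))
      (fun e : Arc p => e.1.1 ∈ M ∨ e.1.2 ∈ M)]
    congr 2
    ext e
    simp only [mem_filter, mem_univ, true_and, mem_compl, not_or]
  have hM : M.card ≤ p := by
    have := card_le_univ M
    rwa [Fintype.card_fin] at this
  rw [card_compl, Fintype.card_fin] at h1
  rw [h1, card_Arc] at h2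
  have h3 : (p - M.card) ≤ (p - M.card) * (p - M.card) := Nat.le_mul_self _
  have h4 : p ≤ p * p := Nat.le_mul_self _
  zify [hM, h3, h4] at h2
  linarith

/-- the arcs which meet `M` and are fixed by `Phi f` -/
lemma fix_meet (f : Equiv.Perm (Fin p)) (M : Finset (Fin p)) (T : Finset (Arc p))
    (hT : ∀ e ∈ T, (e.1.1 ∈ M ∨ e.1.2 ∈ M) ∧ Phi f e = e) : T.card ≤ 2 * M.card := by
  classical
  have h1 : T ⊆ T.filter (fun e => e.1.1 ∈ M) ∪ T.filter (fun e => e.1.2 ∈ M) := by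
    intro e he
    rcases (hT e he).1 with h | h
    · exact mem_union_left _ (mem_filter.2 ⟨he, h⟩)
    · exact mem_union_right _ (mem_filter.2 ⟨he, h⟩)
  have h2 : (T.filter (fun e => e.1.1 ∈ M)).card ≤ M.card := by
    refine card_le_card_of_injOn (fun e => e.1.1) (fun e he => (mem_filter.1 he).2) ?_
    intro e he e' he' h
    have g1 : f e.1.1 = e.1.2 := congrArg (fun x : Arc p => x.1.2) (hT e (mem_filter.1 he).1).2
    have g2 : f e'.1.1 = e'.1.2 := congrArg (fun x : Arc p => x.1.2) (hT e' (mem_filter.1 he').1).2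
    have h' : e.1.1 = e'.1.1 := h
    exact Subtype.ext (Prod.ext h' (by rw [← g1, ← g2, h']))
  have h3 : (T.filter (fun e => e.1.2 ∈ M)).card ≤ M.card := by
    refine card_le_card_of_injOn (fun e => e.1.2) (fun e he => (mem_filter.1 he).2) ?_
    intro e he e' he' h
    have g1 : f e.1.2 = e.1.1 := congrArg (fun x : Arc p => x.1.1) (hT e (mem_filter.1 he).1).2
    have g2 : f e'.1.2 = e'.1.1 := congrArg (fun x : Arc p => x.1.1) (hT e' (mem_filter.1 he').1).2
    have h' : e.1.2 = e'.1.2 := h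
    exact Subtype.ext (Prod.ext (by rw [← g1, ← g2, h']) h')
  have h4 := card_le_card h1
  have h5 := card_union_le (T.filter (fun e => e.1.1 ∈ M)) (T.filter (fun e => e.1.2 ∈ M))
  omega

/-- the arithmetic of the exponents -/
lemma arith {b m g q N n a : ℕ} (h1 : 4 * q + g ≤ 2 * n + 2 * a) (h2 : 2 * N = n + a)
    (hm : 2 ≤ m) (hmp : m ≤ p) (hb : 4 * b + 9 ≤ p)
    (h3 : (m : ℤ) * (2 * p - m - 1) - 6 * m ≤ g) :
    q + ((p - 5) + b * (m - 2)) ≤ N := by
  have h4 : (4 * ((p - 5 : ℕ) + b * (m - 2 : ℕ) : ℕ) : ℤ) ≤ g := by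
    have e1 : ((p - 5 : ℕ) : ℤ) = p - 5 := by omega
    have e2 : ((m - 2 : ℕ) : ℤ) = m - 2 := by omega
    push_cast [e1, e2]
    have hm' : (2 : ℤ) ≤ m := by exact_mod_cast hm
    have hmp' : (m : ℤ) ≤ p := by exact_mod_cast hmp
    have hb' : 4 * (b : ℤ) + 9 ≤ p := by exact_mod_cast hb
    have h6 : (0 : ℤ) ≤ ((m : ℤ) - 2) * (p - m) := mul_nonneg (by linarith) (by linarith)
    have h7 : (4 * (b : ℤ)) * (m - 2) ≤ (p - 9) * (m - 2) :=
      mul_le_mul_of_nonneg_right (by linarith) (by linarith)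
    nlinarith
  have h5 : 4 * ((p - 5 : ℕ) + b * (m - 2 : ℕ)) ≤ g := by exact_mod_cast h4
  omega

/-- the number of the digraphs with an involutive anti-automorphism -/
lemma card_F_inv {σ : Equiv.Perm (Fin p)} (h : ∀ x, σ (σ x) = x) :
    ∃ N : ℕ, (F σ).card = 2 ^ N ∧ 2 * N = Fintype.card (Arc p) + (FA σ).card := by
  classical
  have h1 := inv_classes (Phi σ) (Phi_inv h)
  have h2 := card_inv (Phi σ) (Phi_inv h)
  refine ⟨Nat.card (Quotient (invSetoid (Phi σ) (Phi_inv h))), ?_, ?_⟩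
  · rw [← h2]
    unfold F
    refine congrArg Finset.card ?_
    ext c
    simp only [mem_filter, mem_univ, true_and]
  · rw [h1]
    unfold FA
    refine congrArg (fun k => Fintype.card (Arc p) + k) (congrArg Finset.card ?_)
    ext c
    simp only [mem_filter, mem_univ, true_and]

/-- the part of `σ` with cycles of length at most two -/
def hat (σ : Equiv.Perm (Fin p)) : Equiv.Perm (Fin p) :=
  Function.Involutive.toPerm (fun x => if σ (σ x) = x then σ x else x) (by
    intro x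
    dsimp only
    by_cases h : σ (σ x) = x
    · simp only [h, if_true]
    · simp only [h, if_false])

lemma hat_apply (σ : Equiv.Perm (Fin p)) (x : Fin p) : hat σ x = if σ (σ x) = x then σ x else x := rfl

lemma hat_hat (σ : Equiv.Perm (Fin p)) (x : Fin p) : hat σ (hat σ x) = x :=
  (hat σ).apply_symm_apply x

lemma FA_hat (σ : Equiv.Perm (Fin p)) : FA (hat σ) = FA σ := by
  ext e
  rw [mem_FA, mem_FA]
  constructor
  · intro h
    have h1 : hat σ e.1.2 = e.1.1 := congrArg (fun x : Arc p => x.1.1) h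
    have h2 : hat σ e.1.1 = e.1.2 := congrArg (fun x : Arc p => x.1.2) h
    rw [hat_apply] at h1 h2
    have g1 : σ e.1.2 = e.1.1 := by
      split_ifs at h1 with hc
      · exact h1
      · exact absurd h1.symm e.2
    have g2 : σ e.1.1 = e.1.2 := by
      split_ifs at h2 with hc
      · exact h2
      · exact absurd h2 e.2
    exact Subtype.ext (Prod.ext g1 g2)
  · intro h
    have h1 : σ e.1.2 = e.1.1 := congrArg (fun x : Arc p => x.1.1) h
    have h2 : σ e.1.1 = e.1.2 := congrArg (fun x : Arc p => x.1.2) h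
    have g1 : hat σ e.1.2 = e.1.1 := by
      rw [hat_apply, if_pos (by rw [h1, h2]), h1]
    have g2 : hat σ e.1.1 = e.1.2 := by
      rw [hat_apply, if_pos (by rw [h2, h1]), h2]
    exact Subtype.ext (Prod.ext g1 g2)

lemma hat_supp (σ : Equiv.Perm (Fin p)) (x : Fin p) : x ∈ ((hat σ)⁻¹ * σ).support ↔ σ (σ x) ≠ x := by
  rw [Equiv.Perm.mem_support, Equiv.Perm.mul_apply]
  have h1 : (hat σ)⁻¹ = hat σ := by
    apply Equiv.ext
    intro y
    rw [Equiv.Perm.inv_eq_iff_eq]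
    exact (hat_hat σ y).symm
  rw [h1]
  constructor
  · intro h hc
    apply h
    rw [hat_apply, if_pos (by rw [hc]), hc]
  · intro h hc
    rw [hat_apply] at hc
    have h2 : ¬ σ (σ (σ x)) = σ x := fun h3 => h (σ.injective h3)
    rw [if_neg h2] at hc
    exact h (by rw [hc, hc])

/-- anti-automorphisms which are no involutions -/
lemma gain_non (σ : Equiv.Perm (Fin p)) (hσ : ¬ ∀ x, σ (σ x) = x) (b : ℕ) (hb : 4 * b + 9 ≤ p) :
    (F σ).card * 2 ^ ((p - 5) + b * (((hat σ)⁻¹ * σ).support.card - 2)) ≤ (F (hat σ)).card := by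
  classical
  set M := ((hat σ)⁻¹ * σ).support with hM
  set G0 := univ.filter (fun e : Arc p => e.1.1 ∈ M ∨ e.1.2 ∈ M) with hG0
  set G := G0.filter (fun e => ¬ Phi (σ * σ * σ) e = e) with hG
  have hne : ∀ e ∈ G, Phi σ (Phi σ e) ≠ e := by
    intro e he h
    have h0 : (σ (σ e.1.1), σ (σ e.1.2)) = e.1 := by rw [← Phi_Phi, h]
    have h1 : σ (σ e.1.1) = e.1.1 := congrArg Prod.fst h0
    have h2 : σ (σ e.1.2) = e.1.2 := congrArg Prod.snd h0
    rcases (mem_filter.1 (mem_filter.1 he).1).2 with h3 | h3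
    · exact (hat_supp σ _).1 h3 h1
    · exact (hat_supp σ _).1 h3 h2
  have hne1 : ∀ e ∈ G, Phi σ e ≠ e := fun e he h => hne e he (by rw [h, h])
  have hne3 : ∀ e ∈ G, Phi σ (Phi σ (Phi σ e)) ≠ e := fun e he h => (mem_filter.1 he).2 h
  obtain ⟨q, hq1, hq2⟩ := count_le (F σ) (FA σ) G
    (disjoint_left.2 fun e he he' => hne1 e he' (mem_FA.1 he))
    (fun x hx => ⟨Phi σ x, fun c hc => (mem_F.1 hc x).symm, fun h => hx (mem_FA.2 h)⟩)
    (fun x hx => ⟨Phi σ x, Phi σ (Phi σ x), Phi σ (Phi σ (Phi σ x)), fun c hc => (mem_F.1 hc x).symm,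
      fun c hc => by rw [mem_F.1 hc, mem_F.1 hc],
      fun c hc => by rw [mem_F.1 hc, mem_F.1 hc, mem_F.1 hc], hne1 x hx, hne x hx, hne3 x hx,
      fun h => hne1 x hx (Phi_inj σ h).symm, fun h => hne x hx (Phi_inj σ h).symm,
      fun h => hne1 x hx (Phi_inj σ (Phi_inj σ h)).symm⟩)
  obtain ⟨N, hN1, hN2⟩ := card_F_inv (hat_hat σ)
  rw [FA_hat] at hN2
  have hMp : M.card ≤ p := by
    have := card_le_univ M
    rwa [Fintype.card_fin] at this
  have hM2 : 2 ≤ M.card := by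
    apply Equiv.Perm.two_le_card_support_of_ne_one
    intro h
    apply hσ
    intro x
    by_contra hx
    have h1 := (hat_supp σ x).2 hx
    rw [h] at h1
    simp at h1
  have hGc : (M.card : ℤ) * (2 * p - M.card - 1) - 6 * M.card ≤ G.card := by
    have h1 := arcs_meet M
    rw [← hG0] at h1
    have h2 := card_filter_add_card_filter_not (s := G0) (fun e => Phi (σ * σ * σ) e = e)
    have h3 := fix_meet (σ * σ * σ) M (G0.filter (fun e => Phi (σ * σ * σ) e = e))
      (fun e he => ⟨(mem_filter.1 (mem_filter.1 he).1).2, (mem_filter.1 he).2⟩)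
    rw [← hG] at h2
    have h4 : (G0.card : ℤ) ≤ G.card + 2 * M.card := by
      have : G0.card ≤ G.card + 2 * M.card := by omega
      exact_mod_cast this
    have h5 : (0 : ℤ) ≤ M.card := Nat.cast_nonneg _
    linarith
  have h := arith hq2 hN2 hM2 hMp hb hGc
  rw [hN1]
  calc (F σ).card * 2 ^ ((p - 5) + b * (M.card - 2)) ≤ 2 ^ q * 2 ^ ((p - 5) + b * (M.card - 2)) :=
        Nat.mul_le_mul_right _ hq1
    _ = 2 ^ (q + ((p - 5) + b * (M.card - 2))) := (pow_add _ _ _).symm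
    _ ≤ 2 ^ N := Nat.pow_le_pow_right (by norm_num) h

/-- two involutive anti-automorphisms -/
lemma gain_two {σ τ : Equiv.Perm (Fin p)} (hσ : ∀ x, σ (σ x) = x) (hτ : ∀ x, τ (τ x) = x) (hστ : σ ≠ τ)
    (b : ℕ) (hb : 4 * b + 9 ≤ p) :
    (F σ ∩ F τ).card * 2 ^ ((p - 5) + b * ((σ⁻¹ * τ).support.card - 2)) ≤ (F σ).card := by
  classical
  set M := (σ⁻¹ * τ).support with hM
  have hmem : ∀ x, x ∈ M ↔ τ x ≠ σ x := by
    intro x
    rw [hM, Equiv.Perm.mem_support, Equiv.Perm.mul_apply]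
    constructor
    · intro h h'
      exact h (by rw [h']; simp)
    · intro h h'
      exact h (by rw [Equiv.Perm.inv_eq_iff_eq] at h'; exact h')
  set G0 := univ.filter (fun e : Arc p => e.1.1 ∈ M ∨ e.1.2 ∈ M) with hG0
  set X1 := G0.filter (fun e => Phi σ e = e) with hX1
  set X2 := G0.filter (fun e => Phi τ e = e) with hX2
  set X3 := G0.filter (fun e => Phi (τ * σ * τ) e = e) with hX3
  set G := ((G0 \ X1) \ X2) \ X3 with hG
  have hG1 : ∀ e ∈ G, e ∈ G0 ∧ Phi σ e ≠ e ∧ Phi τ e ≠ e ∧ Phi (τ * σ * τ) e ≠ e := by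
    intro e he
    rw [hG, mem_sdiff, mem_sdiff, mem_sdiff] at he
    obtain ⟨⟨⟨h0, h1⟩, h2⟩, h3⟩ := he
    exact ⟨h0, fun h => h1 (mem_filter.2 ⟨h0, h⟩), fun h => h2 (mem_filter.2 ⟨h0, h⟩),
      fun h => h3 (mem_filter.2 ⟨h0, h⟩)⟩
  have hne : ∀ e ∈ G, Phi σ e ≠ Phi τ e := by
    intro e he h
    have h1 : σ e.1.2 = τ e.1.2 := congrArg (fun x : Arc p => x.1.1) h
    have h2 : σ e.1.1 = τ e.1.1 := congrArg (fun x : Arc p => x.1.2) h
    rcases (mem_filter.1 (hG1 e he).1).2 with h3 | h3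
    · exact (hmem _).1 h3 h2.symm
    · exact (hmem _).1 h3 h1.symm
  have hne2 : ∀ e ∈ G, Phi σ (Phi τ e) ≠ Phi τ e := by
    intro e he h
    apply (hG1 e he).2.2.2
    have h1 : σ (τ e.1.1) = τ e.1.2 := congrArg (fun x : Arc p => x.1.1) h
    have h2 : σ (τ e.1.2) = τ e.1.1 := congrArg (fun x : Arc p => x.1.2) h
    refine Subtype.ext (Prod.ext ?_ ?_)
    · change τ (σ (τ e.1.2)) = e.1.1
      rw [h2, hτ]
    · change τ (σ (τ e.1.1)) = e.1.2
      rw [h1, hτ]
  obtain ⟨q, hq1, hq2⟩ := count_le (F σ ∩ F τ) (FA σ) G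
    (disjoint_left.2 fun e he he' => (hG1 e he').2.1 (mem_FA.1 he))
    (fun x hx => ⟨Phi σ x, fun c hc => (mem_F.1 (mem_inter.1 hc).1 x).symm, fun h => hx (mem_FA.2 h)⟩)
    (fun x hx => ⟨Phi σ x, Phi τ x, Phi σ (Phi τ x),
      fun c hc => (mem_F.1 (mem_inter.1 hc).1 x).symm,
      fun c hc => (mem_F.1 (mem_inter.1 hc).2 x).symm,
      fun c hc => by rw [mem_F.1 (mem_inter.1 hc).1, mem_F.1 (mem_inter.1 hc).2],
      (hG1 x hx).2.1, (hG1 x hx).2.2.1,
      fun h => hne x hx (by rw [← Phi_inv hσ (Phi τ x), h]), hne x hx,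
      fun h => (hG1 x hx).2.2.1 (Phi_inj σ h).symm, fun h => hne2 x hx h.symm⟩)
  obtain ⟨N, hN1, hN2⟩ := card_F_inv hσ
  have hMp : M.card ≤ p := by
    have := card_le_univ M
    rwa [Fintype.card_fin] at this
  have hM2 : 2 ≤ M.card := by
    apply Equiv.Perm.two_le_card_support_of_ne_one
    intro h
    exact hστ (by rw [← inv_mul_eq_one]; exact h)
  have hGc : (M.card : ℤ) * (2 * p - M.card - 1) - 6 * M.card ≤ G.card := by
    have h1 := arcs_meet M
    rw [← hG0] at h1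
    have f1 := fix_meet σ M X1 (fun e he => ⟨(mem_filter.1 (mem_filter.1 he).1).2, (mem_filter.1 he).2⟩)
    have f2 := fix_meet τ M X2 (fun e he => ⟨(mem_filter.1 (mem_filter.1 he).1).2, (mem_filter.1 he).2⟩)
    have f3 := fix_meet (τ * σ * τ) M X3
      (fun e he => ⟨(mem_filter.1 (mem_filter.1 he).1).2, (mem_filter.1 he).2⟩)
    have h2 : G0.card ≤ G.card + X3.card + X2.card + X1.card := by
      have g1 := card_le_card_sdiff_add_card (s := G0) (t := X1)
      have g2 := card_le_card_sdiff_add_card (s := G0 \ X1) (t := X2)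
      have g3 := card_le_card_sdiff_add_card (s := (G0 \ X1) \ X2) (t := X3)
      rw [← hG] at g3
      omega
    have h4 : (G0.card : ℤ) ≤ G.card + 6 * M.card := by
      have : G0.card ≤ G.card + 6 * M.card := by omega
      exact_mod_cast this
    linarith
  have h := arith hq2 hN2 hM2 hMp hb hGc
  rw [hN1]
  calc (F σ ∩ F τ).card * 2 ^ ((p - 5) + b * (M.card - 2)) ≤
        2 ^ q * 2 ^ ((p - 5) + b * (M.card - 2)) := Nat.mul_le_mul_right _ hq1
    _ = 2 ^ (q + ((p - 5) + b * (M.card - 2))) := (pow_add _ _ _).symm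
    _ ≤ 2 ^ N := Nat.pow_le_pow_right (by norm_num) h

end Pool.Agent.K9h60.SC
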