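import Mathlib

/-!
# Counting two-colourings which are constant on the classes of an equivalence relation (helper60)
-/

set_option autoImplicit false

open Finset

namespace Pool.Agent.K9h60.SC

variable {E : Type} [Fintype E]

open Classical in
/-- the sum of the reciprocals of the class sizes is the number of the classes -/
lemma sum_inv (r : Setoid E) : ((Nat.card (Quotient r) : ℕ) : ℚ) =
    ∑ x : E, 1 / ((univ.filter (fun y => r x y)).card : ℚ) := by
  have : Fintype (Quotient r) := Fintype.ofFinite _
  rw [Nat.card_eq_fintype_card, ← Finset.sum_fiberwise univ (fun x => (Quotient.mk r x))]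
  have h : ∀ q : Quotient r, ∑ x ∈ univ.filter (fun x => Quotient.mk r x = q),
      1 / ((univ.filter (fun y => r x y)).card : ℚ) = 1 := by
    intro q
    induction q using Quotient.ind with
    | _ x0 =>
      have e0 : univ.filter (fun x => Quotient.mk r x = Quotient.mk r x0) =
          univ.filter (fun y => r x0 y) := by
        ext x
        simp only [mem_filter, mem_univ, true_and]
        rw [Quotient.eq]
        exact ⟨fun h => r.symm' h, fun h => r.symm' h⟩
      have h1 : ∀ x ∈ univ.filter (fun x => Quotient.mk r x = Quotient.mk r x0),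
          1 / ((univ.filter (fun y => r x y)).card : ℚ) =
          1 / ((univ.filter (fun y => r x0 y)).card : ℚ) := by
        intro x hx
        have hx' : r x x0 := Quotient.eq.1 (mem_filter.1 hx).2
        have e1 : univ.filter (fun y => r x y) = univ.filter (fun y => r x0 y) := by
          ext y
          simp only [mem_filter, mem_univ, true_and]
          exact ⟨fun h => r.trans' (r.symm' hx') h, fun h => r.trans' hx' h⟩
        rw [e1]
      rw [sum_congr rfl h1, sum_const, e0, nsmul_eq_mul]
      have hpos : (0 : ℚ) < ((univ.filter (fun y => r x0 y)).card : ℚ) := by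
        have : 0 < (univ.filter (fun y => r x0 y)).card :=
          card_pos.2 ⟨x0, mem_filter.2 ⟨mem_univ _, r.refl' x0⟩⟩
        exact_mod_cast this
      field_simp
  rw [sum_congr rfl fun q _ => h q]
  simp

/-- the upper bound for the number of classes -/
lemma classes_le (r : Setoid E) (A G : Finset E) (hAG : Disjoint A G)
    (h2 : ∀ x, x ∉ A → ∃ y, r x y ∧ y ≠ x)
    (h3 : ∀ x ∈ G, ∃ y z w, r x y ∧ r x z ∧ r x w ∧ y ≠ x ∧ z ≠ x ∧ w ≠ x ∧ y ≠ z ∧ y ≠ w ∧ z ≠ w) :
    4 * Nat.card (Quotient r) + G.card ≤ 2 * Fintype.card E + 2 * A.card := by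
  classical
  have h := sum_inv r
  have hw : ∀ x, 1 / ((univ.filter (fun y => r x y)).card : ℚ) ≤
      1 / 2 + (if x ∈ A then 1 / 2 else 0) - (if x ∈ G then 1 / 4 else 0) := by
    intro x
    have hx : x ∈ univ.filter (fun y => r x y) := mem_filter.2 ⟨mem_univ _, r.refl' x⟩
    by_cases hG : x ∈ G
    · have hA : x ∉ A := fun hA => (disjoint_left.1 hAG hA) hG
      rw [if_neg hA, if_pos hG]
      obtain ⟨y, z, t, hy, hz, ht, hyx, hzx, htx, hyz, hyt, hzt⟩ := h3 x hG
      have hc : 4 ≤ (univ.filter (fun y => r x y)).card := by
        have hsub : ({x, y, z, t} : Finset E) ⊆ univ.filter (fun y => r x y) := by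
          intro w hw
          simp only [mem_insert, mem_singleton] at hw
          rcases hw with rfl | rfl | rfl | rfl
          · exact hx
          · exact mem_filter.2 ⟨mem_univ _, hy⟩
          · exact mem_filter.2 ⟨mem_univ _, hz⟩
          · exact mem_filter.2 ⟨mem_univ _, ht⟩
        have hcard : ({x, y, z, t} : Finset E).card = 4 := by
          rw [card_insert_of_notMem, card_insert_of_notMem, card_insert_of_notMem, card_singleton]
          · simpa using hzt
          · simp only [mem_insert, mem_singleton, not_or]
            exact ⟨hyz, hyt⟩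
          · simp only [mem_insert, mem_singleton, not_or]
            exact ⟨hyx.symm, hzx.symm, htx.symm⟩
        rw [← hcard]
        exact card_le_card hsub
      have hc' : (4 : ℚ) ≤ ((univ.filter (fun y => r x y)).card : ℚ) := by exact_mod_cast hc
      have := one_div_le_one_div_of_le (by norm_num : (0 : ℚ) < 4) hc'
      linarith
    · rw [if_neg hG]
      by_cases hA : x ∈ A
      · rw [if_pos hA]
        have hc : 1 ≤ (univ.filter (fun y => r x y)).card := card_pos.2 ⟨x, hx⟩
        have hc' : (1 : ℚ) ≤ ((univ.filter (fun y => r x y)).card : ℚ) := by exact_mod_cast hc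
        have := one_div_le_one_div_of_le (by norm_num : (0 : ℚ) < 1) hc'
        linarith
      · rw [if_neg hA]
        obtain ⟨y, hy, hyx⟩ := h2 x hA
        have hc : 2 ≤ (univ.filter (fun y => r x y)).card := by
          have hsub : ({x, y} : Finset E) ⊆ univ.filter (fun y => r x y) := by
            intro w hw
            simp only [mem_insert, mem_singleton] at hw
            rcases hw with rfl | rfl
            · exact hx
            · exact mem_filter.2 ⟨mem_univ _, hy⟩
          have hcard : ({x, y} : Finset E).card = 2 := card_pair hyx.symm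
          rw [← hcard]
          exact card_le_card hsub
        have hc' : (2 : ℚ) ≤ ((univ.filter (fun y => r x y)).card : ℚ) := by exact_mod_cast hc
        have := one_div_le_one_div_of_le (by norm_num : (0 : ℚ) < 2) hc'
        linarith
  have hs := sum_le_sum fun x (_ : x ∈ (univ : Finset E)) => hw x
  rw [← h, sum_sub_distrib, sum_add_distrib, sum_const, card_univ, nsmul_eq_mul] at hs
  simp only [sum_ite_mem, univ_inter, sum_const, nsmul_eq_mul] at hs
  have h6 : (4 : ℚ) * (Nat.card (Quotient r) : ℚ) + G.card ≤ 2 * Fintype.card E + 2 * A.card := by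
    linarith
  exact_mod_cast h6

/-- colourings which are constant on the classes -/
lemma card_le_pow (S : Finset (E → Bool)) (r : Setoid E)
    (h : ∀ c ∈ S, ∀ x y, r x y → c x = c y) : S.card ≤ 2 ^ Nat.card (Quotient r) := by
  classical
  have : Fintype (Quotient r) := Fintype.ofFinite _
  have hle : Fintype.card S ≤ Fintype.card (Quotient r → Bool) := by
    refine Fintype.card_le_of_injective (fun c : S => fun q : Quotient r =>
      Quotient.lift c.1 (h c.1 c.2) q) ?_
    intro c c' hcc
    apply Subtype.ext
    funext x
    exact congrFun hcc (Quotient.mk r x)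
  rw [Fintype.card_coe, Fintype.card_fun, Fintype.card_bool] at hle
  rw [Nat.card_eq_fintype_card]
  exact hle

/-- the upper bound for colourings with constraints -/
lemma count_le (S : Finset (E → Bool)) (A G : Finset E) (hAG : Disjoint A G)
    (h2 : ∀ x, x ∉ A → ∃ y, (∀ c ∈ S, c x = c y) ∧ y ≠ x)
    (h3 : ∀ x ∈ G, ∃ y z w, (∀ c ∈ S, c x = c y) ∧ (∀ c ∈ S, c x = c z) ∧ (∀ c ∈ S, c x = c w) ∧
      y ≠ x ∧ z ≠ x ∧ w ≠ x ∧ y ≠ z ∧ y ≠ w ∧ z ≠ w) :
    ∃ q : ℕ, S.card ≤ 2 ^ q ∧ 4 * q + G.card ≤ 2 * Fintype.card E + 2 * A.card := by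
  let r : Setoid E := ⟨fun x y => ∀ c ∈ S, c x = c y, fun x c _ => rfl,
    fun h c hc => (h c hc).symm, fun h h' c hc => (h c hc).trans (h' c hc)⟩
  exact ⟨Nat.card (Quotient r), card_le_pow S r fun c hc x y h => h c hc,
    classes_le r A G hAG h2 h3⟩

/-- the setoid of an involution -/
def invSetoid (φ : E → E) (hφ : ∀ x, φ (φ x) = x) : Setoid E where
  r x y := y = x ∨ y = φ x
  iseqv := by
    refine ⟨fun x => Or.inl rfl, ?_, ?_⟩
    · rintro x y (h | h)
      · exact Or.inl h.symm
      · exact Or.inr (by rw [h, hφ])
    · rintro x y z (h | h) (h' | h')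
      · exact Or.inl (h'.trans h)
      · exact Or.inr (by rw [h', h])
      · exact Or.inr (by rw [h', h])
      · exact Or.inl (by rw [h', h, hφ])

open Classical in
lemma inv_classes (φ : E → E) (hφ : ∀ x, φ (φ x) = x) :
    2 * Nat.card (Quotient (invSetoid φ hφ)) =
      Fintype.card E + (univ.filter (fun x => φ x = x)).card := by
  have h := sum_inv (invSetoid φ hφ)
  have hw : ∀ x, 1 / ((univ.filter (fun y => invSetoid φ hφ x y)).card : ℚ) =
      1 / 2 + (if φ x = x then 1 / 2 else 0) := by
    intro x
    have e : univ.filter (fun y => invSetoid φ hφ x y) = {x, φ x} := by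
      ext y
      simp only [mem_filter, mem_univ, true_and, mem_insert, mem_singleton]
      exact Iff.rfl
    rw [e]
    by_cases hx : φ x = x
    · rw [if_pos hx, hx]
      norm_num
    · rw [if_neg hx, card_pair (Ne.symm hx)]
      norm_num
  rw [sum_congr rfl fun x _ => hw x, sum_add_distrib, sum_const, card_univ, nsmul_eq_mul,
    ← sum_filter, sum_const, nsmul_eq_mul] at h
  have h2 : (2 : ℚ) * (Nat.card (Quotient (invSetoid φ hφ)) : ℚ) =
      Fintype.card E + ((univ.filter (fun x => φ x = x)).card : ℚ) := by
    rw [h]; ring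
  exact_mod_cast h2

open Classical in
/-- the number of the colourings invariant under an involution -/
lemma card_inv (φ : E → E) (hφ : ∀ x, φ (φ x) = x) :
    (univ.filter (fun c : E → Bool => ∀ x, c (φ x) = c x)).card =
      2 ^ Nat.card (Quotient (invSetoid φ hφ)) := by
  have : Fintype (Quotient (invSetoid φ hφ)) := Fintype.ofFinite _
  rw [Nat.card_eq_fintype_card, ← Fintype.card_bool, ← Fintype.card_fun, ← Fintype.card_subtype]
  refine Fintype.card_congr ?_
  exact
    { toFun := fun c => Quotient.lift c.1 (by
        rintro x y (h | h)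
        · rw [h]
        · rw [h, c.2])
      invFun := fun f => ⟨fun x => f (Quotient.mk _ x), fun x => by
        have : (Quotient.mk (invSetoid φ hφ) (φ x)) = Quotient.mk (invSetoid φ hφ) x :=
          Quotient.sound ((invSetoid φ hφ).symm' (Or.inr rfl))
        exact congrArg f this⟩
      left_inv := fun c => rfl
      right_inv := fun f => by
        funext q
        induction q using Quotient.ind
        rfl }

end Pool.Agent.K9h60.SC
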