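import Pool.Agent.K9h60.SC.Sum

/-!
# The closed form of the main term, and the self-converse digraphs with automorphisms (helper60)
-/

set_option autoImplicit false

open Finset

namespace Pool.Agent.K9h60.SC

open Pool.Agent.Results.MP_b5e4d4_co.SubgroupFormula (Arc LDigraph SelfConverse s)

variable {p : ℕ}

lemma FA_card {σ : Equiv.Perm (Fin p)} (h : ∀ x, σ (σ x) = x) : (FA σ).card = σ.support.card := by
  refine card_bij (fun e _ => e.1.1) ?_ ?_ ?_
  · intro e he
    have h2 : σ e.1.1 = e.1.2 := congrArg (fun x : Arc p => x.1.2) (mem_FA.1 he)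
    rw [Equiv.Perm.mem_support, h2]
    exact e.2.symm
  · intro e he e' he' h'
    have g1 : σ e.1.1 = e.1.2 := congrArg (fun x : Arc p => x.1.2) (mem_FA.1 he)
    have g2 : σ e'.1.1 = e'.1.2 := congrArg (fun x : Arc p => x.1.2) (mem_FA.1 he')
    exact Subtype.ext (Prod.ext h' (by rw [← g1, ← g2, h']))
  · intro x hx
    rw [Equiv.Perm.mem_support] at hx
    refine ⟨⟨(x, σ x), hx.symm⟩, mem_FA.2 ?_, rfl⟩
    exact Subtype.ext (Prod.ext (h x) rfl)

lemma sq_one {σ : Equiv.Perm (Fin p)} : (∀ x, σ (σ x) = x) ↔ σ ^ 2 = 1 := by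
  rw [sq]
  constructor
  · intro h
    exact Equiv.ext h
  · intro h x
    exact Equiv.congr_fun h x

lemma cyc {σ : Equiv.Perm (Fin p)} :
    (∀ x, σ (σ x) = x) ↔ σ.cycleType = Multiset.replicate σ.cycleType.card 2 := by
  have : Fact (Nat.Prime 2) := ⟨Nat.prime_two⟩
  rw [sq_one, Equiv.Perm.pow_prime_eq_one_iff, Multiset.eq_replicate]
  simp

lemma supp_card {σ : Equiv.Perm (Fin p)} (h : ∀ x, σ (σ x) = x) :
    σ.support.card = 2 * σ.cycleType.card := by
  have h1 := cyc.1 h
  rw [← Equiv.Perm.sum_cycleType]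
  conv_lhs => rw [h1]
  rw [Multiset.sum_replicate, smul_eq_mul, mul_comm]

lemma F_card {σ : Equiv.Perm (Fin p)} (h : ∀ x, σ (σ x) = x) :
    (F σ).card = 2 ^ (p * (p - 1) / 2 + σ.cycleType.card) := by
  obtain ⟨N, hN1, hN2⟩ := card_F_inv h
  rw [FA_card h, supp_card h, card_Arc] at hN2
  rw [hN1]
  congr 1
  have h3 : p * p - p = p * (p - 1) := by
    rw [Nat.mul_sub, mul_one]
  rw [h3] at hN2
  have h4 : 2 ∣ p * (p - 1) := by
    rcases Nat.even_or_odd p with he | ho
    · exact dvd_mul_of_dvd_left he.two_dvd _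
    · have : Even (p - 1) := Nat.Odd.sub_odd ho odd_one
      exact dvd_mul_of_dvd_right this.two_dvd _
  omega

open Classical in
lemma count_t (t : ℕ) (ht : 2 * t ≤ p) :
    (((Iv p).filter (fun σ => σ.cycleType.card = t)).card : ℝ) * 2 ^ t =
      (p.factorial : ℝ) / ((p - 2 * t).factorial * t.factorial) := by
  have h1 : (Iv p).filter (fun σ => σ.cycleType.card = t) =
      univ.filter (fun σ : Equiv.Perm (Fin p) => σ.cycleType = Multiset.replicate t 2) := by
    ext σ
    simp only [mem_filter, mem_univ, true_and, mem_Iv]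
    constructor
    · rintro ⟨h, rfl⟩
      exact cyc.1 h
    · intro h
      have h2 : σ.cycleType.card = t := by rw [h, Multiset.card_replicate]
      refine ⟨cyc.2 (by rw [h2]; exact h), h2⟩
  have h2 := Equiv.Perm.card_of_cycleType_mul_eq (Fin p) (Multiset.replicate t 2)
  rw [if_pos ⟨by rw [Multiset.sum_replicate, smul_eq_mul, Fintype.card_fin]; omega,
    fun a ha => (Multiset.eq_of_mem_replicate ha).ge⟩] at h2
  rw [Multiset.sum_replicate, smul_eq_mul, Fintype.card_fin, Multiset.prod_replicate] at h2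
  have h3 : ∏ n ∈ (Multiset.replicate t 2).toFinset, ((Multiset.replicate t 2).count n).factorial =
      t.factorial := by
    rcases Nat.eq_zero_or_pos t with h0 | h0
    · subst h0
      simp
    · rw [Multiset.toFinset_replicate, if_neg (by omega), prod_singleton, Multiset.count_replicate_self]
  rw [h3] at h2
  have h4 : ((Iv p).filter (fun σ => σ.cycleType.card = t)).card * ((p - t * 2).factorial * 2 ^ t * t.factorial) =
      p.factorial := by
    rw [h1]
    convert h2 using 2
  have h5 : (((Iv p).filter (fun σ => σ.cycleType.card = t)).card : ℝ) *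
      ((p - t * 2).factorial * 2 ^ t * t.factorial) = p.factorial := by exact_mod_cast h4
  rw [mul_comm t 2] at h5
  rw [eq_div_iff (by positivity), ← h5]
  ring

/-- the closed form -/
lemma SS_eq : (SS p : ℝ) = 2 ^ (p * (p - 1) / 2) *
    ∑ t ∈ range (p / 2 + 1), (p.factorial : ℝ) / ((p - 2 * t).factorial * t.factorial) := by
  classical
  unfold SS
  push_cast
  rw [← sum_fiberwise_of_maps_to (s := Iv p) (t := range (p / 2 + 1))
    (g := fun σ => σ.cycleType.card) (fun σ hσ => by
      have h1 := supp_card (mem_Iv.1 hσ)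
      have h2 := card_le_univ σ.support
      rw [Fintype.card_fin] at h2
      rw [mem_range]
      omega), mul_sum]
  apply sum_congr rfl
  intro t ht
  rw [mem_range] at ht
  rw [← count_t t (by omega)]
  have h1 : ∀ σ ∈ (Iv p).filter (fun σ => σ.cycleType.card = t),
      ((F σ).card : ℝ) = 2 ^ (p * (p - 1) / 2) * 2 ^ t := by
    intro σ hσ
    rw [F_card (mem_Iv.1 (mem_filter.1 hσ).1), (mem_filter.1 hσ).2]
    push_cast
    rw [pow_add]
  rw [sum_congr rfl h1, sum_const, nsmul_eq_mul]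
  ring

lemma sum_F (b : ℕ) (hb : 4 * b + 9 ≤ p) :
    ∑ σ : Equiv.Perm (Fin p), ((F σ).card : ℝ) ≤ SS p * (1 + eps p b) := by
  classical
  have h2 : ∑ σ : Equiv.Perm (Fin p), ((F σ).card : ℝ) = SS p + ∑ σ ∈ (Iv p)ᶜ, ((F σ).card : ℝ) := by
    unfold SS
    push_cast
    rw [sum_add_sum_compl]
  have h3 : ∑ σ ∈ (Iv p)ᶜ, ((F σ).card : ℝ) ≤ SS p * eps p b := by
    rw [← sum_fiberwise_of_maps_to (s := (Iv p)ᶜ) (t := Iv p) (g := hat) fun σ _ => hat_mem σ]
    unfold SS
    push_cast
    rw [sum_mul]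
    apply sum_le_sum
    intro ρ hρ
    have h4 : ∀ σ ∈ (Iv p)ᶜ.filter (fun σ => hat σ = ρ), ((F σ).card : ℝ) ≤
        (F ρ).card * wt p b (ρ⁻¹ * σ).support.card := by
      intro σ hσ
      have h5 := gain_non σ (fun hc => mem_compl.1 (mem_filter.1 hσ).1 (mem_Iv.2 hc)) b hb
      rw [(mem_filter.1 hσ).2] at h5
      exact real_gain h5
    refine (sum_le_sum h4).trans ?_
    rw [← mul_sum]
    apply mul_le_mul_of_nonneg_left _ (Nat.cast_nonneg _)
    apply eps_shift
    intro h
    exact (mem_compl.1 (mem_filter.1 h).1) hρ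
  rw [h2]
  linarith

open Classical in
/-- the digraphs with at least two anti-automorphisms -/
noncomputable def KK (p : ℕ) : Finset (Arc p → Bool) :=
  univ.filter fun c => ∃ σ τ : Equiv.Perm (Fin p), σ ≠ τ ∧ c ∈ F σ ∧ c ∈ F τ

lemma KK_le (b : ℕ) (hb : 4 * b + 9 ≤ p) : ((KK p).card : ℝ) ≤ 2 * eps p b * SS p := by
  classical
  have h1 : ((Scd p).card : ℝ) + (KK p).card ≤ ∑ σ : Equiv.Perm (Fin p), ((F σ).card : ℝ) := by
    have e1 : ∑ σ : Equiv.Perm (Fin p), (F σ).card =
        ∑ c : Arc p → Bool, (univ.filter (fun σ : Equiv.Perm (Fin p) => c ∈ F σ)).card := by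
      have h := sum_card_bipartiteAbove_eq_sum_card_bipartiteBelow
        (s := (univ : Finset (Equiv.Perm (Fin p)))) (t := (univ : Finset (Arc p → Bool)))
        (fun σ c => c ∈ F σ)
      have h' : ∀ σ : Equiv.Perm (Fin p), bipartiteAbove (fun σ c => c ∈ F σ) univ σ = F σ := by
        intro σ
        ext c
        simp [bipartiteAbove]
      simp only [h'] at h
      exact h
    have e2 : (Scd p).card = ∑ c : Arc p → Bool, if c ∈ Scd p then 1 else 0 := by simp
    have e3 : (KK p).card = ∑ c : Arc p → Bool, if c ∈ KK p then 1 else 0 := by simp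
    have e4 : (Scd p).card + (KK p).card ≤ ∑ σ : Equiv.Perm (Fin p), (F σ).card := by
      rw [e1, e2, e3, ← sum_add_distrib]
      apply sum_le_sum
      intro c _
      by_cases hK : c ∈ KK p
      · rw [if_pos hK]
        obtain ⟨σ, τ, hne, hσ, hτ⟩ := (mem_filter.1 hK).2
        have hsub : ({σ, τ} : Finset (Equiv.Perm (Fin p))) ⊆
            univ.filter (fun σ : Equiv.Perm (Fin p) => c ∈ F σ) := by
          intro x hx
          simp only [mem_insert, mem_singleton] at hx
          rcases hx with rfl | rfl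
          · exact mem_filter.2 ⟨mem_univ _, hσ⟩
          · exact mem_filter.2 ⟨mem_univ _, hτ⟩
        have h2 := card_le_card hsub
        rw [card_pair hne] at h2
        split_ifs <;> omega
      · rw [if_neg hK]
        by_cases hS : c ∈ Scd p
        · rw [if_pos hS]
          obtain ⟨σ, _, hσ⟩ := mem_biUnion.1 hS
          have : 0 < (univ.filter (fun σ : Equiv.Perm (Fin p) => c ∈ F σ)).card :=
            card_pos.2 ⟨σ, mem_filter.2 ⟨mem_univ _, hσ⟩⟩
          omega
        · rw [if_neg hS]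
          exact Nat.zero_le _
    exact_mod_cast e4
  have h2 := sum_F b hb
  have h3 := lower b hb
  linarith

/-- digraphs as colourings of the ordered pairs -/
noncomputable def eB (p : ℕ) : LDigraph p ≃ (Arc p → Bool) :=
  (Pool.Agent.Results.MP_b5e4d4_co.SubgroupFormula.eD p).trans
    (Equiv.arrowCongr (Equiv.refl _) Equiv.propEquivBool)

lemma eB_true {D : LDigraph p} {e : Arc p} : eB p D e = true ↔ D.1 e.1.1 e.1.2 := by
  change Equiv.propEquivBool (D.1 e.1.1 e.1.2) = true ↔ _
  simp [Equiv.propEquivBool]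

lemma anti_iff {D : LDigraph p} {σ : Equiv.Perm (Fin p)} :
    eB p D ∈ F σ ↔ ∀ u v, D.1 u v ↔ D.1 (σ v) (σ u) := by
  rw [mem_F]
  constructor
  · intro h u v
    by_cases huv : u = v
    · subst huv
      exact ⟨fun h => absurd h (D.2 _), fun h => absurd h (D.2 _)⟩
    · have := h ⟨(u, v), huv⟩
      rw [Bool.eq_iff_iff, eB_true, eB_true] at this
      exact this.symm
  · intro h e
    rw [Bool.eq_iff_iff, eB_true, eB_true]
    exact (h _ _).symm

lemma s_eq : s p = (Scd p).card := by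
  unfold s
  rw [Nat.card_congr (Equiv.subtypeEquiv (q := fun c => c ∈ Scd p) (eB p) fun D => ?_)]
  · rw [Nat.card_eq_fintype_card, Fintype.card_coe]
  · constructor
    · rintro ⟨σ, hσ⟩
      exact mem_biUnion.2 ⟨σ, mem_univ _, anti_iff.2 hσ⟩
    · intro h
      obtain ⟨σ, _, hσ⟩ := mem_biUnion.1 h
      exact ⟨σ, anti_iff.1 hσ⟩

/-- the automorphism group of `D` is not trivial -/
def HasAut (D : LDigraph p) : Prop :=
  ∃ τ : Equiv.Perm (Fin p), τ ≠ 1 ∧ ∀ u v, D.1 u v ↔ D.1 (τ u) (τ v)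

lemma aut_le : Nat.card {D : LDigraph p // SelfConverse D ∧ HasAut D} ≤ (KK p).card := by
  classical
  rw [← Fintype.card_coe, ← Nat.card_eq_fintype_card]
  refine Nat.card_le_card_of_injective (fun D => ⟨eB p D.1, ?_⟩) ?_
  · obtain ⟨D, ⟨σ, hσ⟩, τ, hτ, h⟩ := D
    refine mem_filter.2 ⟨mem_univ _, σ, σ * τ, fun hc => hτ ?_, anti_iff.2 hσ, anti_iff.2 fun u v => ?_⟩
    · exact (mul_eq_left.1 hc.symm)
    · rw [h u v]
      exact hσ _ _
  · intro D D' h
    have h1 : eB p D.1 = eB p D'.1 := congrArg Subtype.val h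
    exact Subtype.ext ((eB p).injective h1)

lemma pow_ok (p : ℕ) (hp : 57 ≤ p) : p ^ 2 ≤ 2 ^ ((p - 9) / 4) := by
  induction p using Nat.strong_induction_on with
  | _ p ih =>
    rcases Nat.lt_or_ge p 61 with h | h
    · interval_cases p <;> norm_num
    · obtain ⟨q, rfl⟩ : ∃ q, p = q + 4 := ⟨p - 4, by omega⟩
      have h1 := ih q (by omega) (by omega)
      have h2 : (q + 4 - 9) / 4 = (q - 9) / 4 + 1 := by omega
      have h3 : 2 ^ ((q - 9) / 4 + 1) = 2 * 2 ^ ((q - 9) / 4) := by rw [pow_succ]; ring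
      rw [h2, h3]
      have h4 : 57 ≤ q := by omega
      nlinarith

/-- the main term -/
noncomputable def main (p : ℕ) : ℝ := 2 ^ (p * (p - 1) / 2) *
  ∑ t ∈ range (p / 2 + 1), (p.factorial : ℝ) / ((p - 2 * t).factorial * t.factorial)

/-- the relative error -/
noncomputable def err (p : ℕ) : ℝ := 96 * p ^ 4 / 2 ^ p

lemma main_pos (p : ℕ) : 0 < main p := by
  unfold main
  apply mul_pos (by positivity)
  apply sum_pos
  · intro t _
    positivity
  · exact ⟨0, mem_range.2 (by omega)⟩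

lemma eps_err (hp : 57 ≤ p) : eps p ((p - 9) / 4) ≤ err p := by
  refine (eps_le p ((p - 9) / 4) (by omega) (pow_ok p hp)).trans (le_of_eq ?_)
  unfold err
  obtain ⟨q, rfl⟩ : ∃ q, p = q + 5 := ⟨p - 5, by omega⟩
  rw [Nat.add_sub_cancel, pow_add (2 : ℝ) q 5]
  field_simp
  ring

lemma est (hp : 57 ≤ p) : |(s p : ℝ) - main p| ≤ err p * main p := by
  have hb : 4 * ((p - 9) / 4) + 9 ≤ p := by omega
  have h0 : (SS p : ℝ) = main p := SS_eq
  have h1 := upper ((p - 9) / 4) hb
  have h2 := lower ((p - 9) / 4) hb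
  have h3 := eps_err hp
  rw [h0] at h1 h2
  rw [← s_eq] at h1 h2
  have h5 := main_pos p
  have h6 : eps p ((p - 9) / 4) * main p ≤ err p * main p := mul_le_mul_of_nonneg_right h3 h5.le
  rw [abs_le]
  constructor <;> linarith

lemma est_aut (hp : 57 ≤ p) :
    (Nat.card {D : LDigraph p // SelfConverse D ∧ HasAut D} : ℝ) ≤ 2 * err p * main p := by
  have hb : 4 * ((p - 9) / 4) + 9 ≤ p := by omega
  have h0 : (SS p : ℝ) = main p := SS_eq
  have h1 := KK_le ((p - 9) / 4) hb
  have h2 : (Nat.card {D : LDigraph p // SelfConverse D ∧ HasAut D} : ℝ) ≤ (KK p).card := by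
    exact_mod_cast aut_le
  have h3 := eps_err hp
  rw [h0] at h1
  have h5 := main_pos p
  have h6 : eps p ((p - 9) / 4) * main p ≤ err p * main p := mul_le_mul_of_nonneg_right h3 h5.le
  linarith

open Filter Topology in
lemma err_tendsto : Tendsto err atTop (𝓝 0) := by
  have h1 : Tendsto (fun n : ℕ => (n : ℝ) ^ 4 / 2 ^ n) atTop (𝓝 0) :=
    tendsto_pow_const_div_const_pow_of_one_lt 4 (by norm_num)
  have h3 := h1.const_mul 96
  rw [mul_zero] at h3
  refine h3.congr fun p => ?_
  unfold err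
  ring

open Filter Topology in
lemma ratio : Tendsto (fun p : ℕ => (s p : ℝ) / main p) atTop (𝓝 1) := by
  rw [tendsto_iff_norm_sub_tendsto_zero]
  refine squeeze_zero' (Eventually.of_forall fun p => norm_nonneg _) ?_ err_tendsto
  filter_upwards [eventually_ge_atTop 57] with p hp
  have h1 := est hp
  have h2 := main_pos p
  have h3 : (s p : ℝ) / main p - 1 = ((s p : ℝ) - main p) / main p := by
    field_simp
  rw [Real.norm_eq_abs, h3, abs_div, abs_of_pos h2, div_le_iff₀ h2]
  exact h1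

end Pool.Agent.K9h60.SC
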