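import Pool.Agent.K9h60.SC.Arc

/-!
# The sums over the permutations (helper60)
-/

set_option autoImplicit false

open Finset

namespace Pool.Agent.K9h60.SC

open Pool.Agent.Results.MP_b5e4d4_co.SubgroupFormula (Arc LDigraph SelfConverse s)

variable {p : ℕ}

/-- the sum of `y ^ |support|` over all the permutations -/
lemma sum_supp_le (y : ℝ) (hy : 0 ≤ y) :
    ∑ τ : Equiv.Perm (Fin p), y ^ τ.support.card ≤ (1 + (p - 1) * y) ^ p := by
  classical
  set w : Fin p → Fin p → ℝ := fun i j => if j = i then 1 else y with hw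
  have hw0 : ∀ i j, 0 ≤ w i j := fun i j => by
    simp only [hw]
    split_ifs
    · exact zero_le_one
    · exact hy
  have h1 : ∀ τ : Equiv.Perm (Fin p), y ^ τ.support.card = ∏ i, w i (τ i) := by
    intro τ
    simp only [hw]
    rw [prod_ite, prod_const_one, one_mul, prod_const]
    congr 2
  rw [sum_congr rfl fun τ _ => h1 τ]
  have h2 : ∑ τ : Equiv.Perm (Fin p), ∏ i, w i (τ i) ≤ ∑ f : Fin p → Fin p, ∏ i, w i (f i) := by
    have h3 : ∑ τ : Equiv.Perm (Fin p), ∏ i, w i (τ i) =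
        ∑ f ∈ (univ : Finset (Equiv.Perm (Fin p))).image
          (fun τ : Equiv.Perm (Fin p) => (⇑τ : Fin p → Fin p)),
          ∏ i, w i (f i) := by
      rw [sum_image]
      intro τ _ τ' _ h
      exact DFunLike.coe_injective h
    rw [h3]
    exact sum_le_sum_of_subset_of_nonneg (subset_univ _) fun f _ _ => prod_nonneg fun i _ => hw0 _ _
  refine h2.trans (le_of_eq ?_)
  have h4 := (prod_univ_sum (fun _ : Fin p => (univ : Finset (Fin p))) w).symm
  rw [Fintype.piFinset_univ] at h4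
  rw [h4]
  have h5 : ∀ i : Fin p, ∑ j, w i j = 1 + (p - 1) * y := by
    intro i
    simp only [hw]
    rw [← add_sum_erase univ _ (mem_univ i), if_pos rfl]
    congr 1
    rw [sum_congr rfl (g := fun _ => y) fun j hj => if_neg (ne_of_mem_erase hj), sum_const,
      card_erase_of_mem (mem_univ i), card_univ, Fintype.card_fin, nsmul_eq_mul]
    have : 1 ≤ p := i.pos
    push_cast [this]
    ring
  rw [prod_congr rfl fun i _ => h5 i, prod_const, card_univ, Fintype.card_fin]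

/-- the gain for permutations which move `m` points -/
noncomputable def wt (p b m : ℕ) : ℝ := 1 / 2 ^ (p - 5) * (1 / 2 ^ b : ℝ) ^ (m - 2)

lemma wt_nonneg (p b m : ℕ) : 0 ≤ wt p b m := by
  unfold wt
  positivity

open Classical in
/-- the error term -/
noncomputable def eps (p b : ℕ) : ℝ :=
  ∑ τ ∈ (univ : Finset (Equiv.Perm (Fin p))).erase 1, wt p b τ.support.card

lemma eps_nonneg (p b : ℕ) : 0 ≤ eps p b := sum_nonneg fun _ _ => wt_nonneg _ _ _

lemma eps_le (p b : ℕ) (hp : 1 ≤ p) (hb : p ^ 2 ≤ 2 ^ b) : eps p b ≤ 3 * p ^ 4 / 2 ^ (p - 5) := by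
  classical
  have hp0 : (0 : ℝ) < p := by exact_mod_cast hp
  have hbr : (p : ℝ) ^ 2 ≤ 2 ^ b := by exact_mod_cast hb
  have hK : (1 / 2 ^ b : ℝ) ≤ 1 / (p : ℝ) ^ 2 := one_div_le_one_div_of_le (by positivity) hbr
  have h1 : eps p b ≤ ∑ τ ∈ (univ : Finset (Equiv.Perm (Fin p))).erase 1,
      1 / 2 ^ (p - 5) * ((p : ℝ) ^ 4 * (1 / (p : ℝ) ^ 2) ^ τ.support.card) := by
    unfold eps wt
    apply sum_le_sum
    intro τ hτ
    have h2 : 2 ≤ τ.support.card :=
      Equiv.Perm.two_le_card_support_of_ne_one (ne_of_mem_erase hτ)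
    apply mul_le_mul_of_nonneg_left _ (by positivity)
    refine (pow_le_pow_left₀ (by positivity) hK _).trans (le_of_eq ?_)
    obtain ⟨k, hk⟩ : ∃ k, τ.support.card = k + 2 := ⟨τ.support.card - 2, by omega⟩
    rw [hk, Nat.add_sub_cancel, pow_add]
    field_simp
  refine h1.trans ?_
  rw [← mul_sum, ← mul_sum]
  have h3 : ∑ τ ∈ (univ : Finset (Equiv.Perm (Fin p))).erase 1, (1 / (p : ℝ) ^ 2) ^ τ.support.card ≤ 3 := by
    refine (sum_le_sum_of_subset_of_nonneg (erase_subset _ _) fun _ _ _ => by positivity).trans ?_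
    refine (sum_supp_le (1 / (p : ℝ) ^ 2) (by positivity)).trans ?_
    have h4 : 1 + ((p : ℝ) - 1) * (1 / (p : ℝ) ^ 2) ≤ Real.exp (1 / p) := by
      have h5 : ((p : ℝ) - 1) * (1 / (p : ℝ) ^ 2) ≤ 1 / p := by
        rw [mul_one_div, div_le_div_iff₀ (by positivity) hp0]
        nlinarith
      have h6 := Real.add_one_le_exp (1 / (p : ℝ))
      linarith
    have h7 : (0 : ℝ) ≤ 1 + ((p : ℝ) - 1) * (1 / (p : ℝ) ^ 2) := by
      have : (1 : ℝ) ≤ p := by exact_mod_cast hp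
      have : 0 ≤ ((p : ℝ) - 1) * (1 / (p : ℝ) ^ 2) := mul_nonneg (by linarith) (by positivity)
      linarith
    calc (1 + ((p : ℝ) - 1) * (1 / (p : ℝ) ^ 2)) ^ p ≤ Real.exp (1 / p) ^ p :=
          pow_le_pow_left₀ h7 h4 p
      _ = Real.exp 1 := by
          rw [← Real.exp_nat_mul]
          congr 1
          field_simp
      _ ≤ 3 := by
          have := Real.exp_one_lt_d9
          linarith
  calc 1 / 2 ^ (p - 5) * ((p : ℝ) ^ 4 * _) ≤ 1 / 2 ^ (p - 5) * ((p : ℝ) ^ 4 * 3) :=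
        mul_le_mul_of_nonneg_left (mul_le_mul_of_nonneg_left h3 (by positivity)) (by positivity)
    _ = 3 * p ^ 4 / 2 ^ (p - 5) := by ring

/-- the sum over the other permutations, seen from `ρ` -/
lemma eps_shift (b : ℕ) (ρ : Equiv.Perm (Fin p)) (T : Finset (Equiv.Perm (Fin p))) (hT : ρ ∉ T) :
    ∑ σ ∈ T, wt p b (ρ⁻¹ * σ).support.card ≤ eps p b := by
  classical
  unfold eps
  have h1 : ∑ σ ∈ T, wt p b (ρ⁻¹ * σ).support.card =
      ∑ τ ∈ T.image (fun σ => ρ⁻¹ * σ), wt p b τ.support.card := by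
    rw [sum_image]
    intro σ _ σ' _ h
    exact mul_left_cancel h
  rw [h1]
  apply sum_le_sum_of_subset_of_nonneg
  · intro τ hτ
    obtain ⟨σ, hσ, rfl⟩ := mem_image.1 hτ
    refine mem_erase.2 ⟨fun h => hT ?_, mem_univ _⟩
    rw [inv_mul_eq_one] at h
    rw [h]
    exact hσ
  · intro _ _ _
    exact wt_nonneg _ _ _

open Classical in
/-- the involutions (and the identity) -/
noncomputable def Iv (p : ℕ) : Finset (Equiv.Perm (Fin p)) := univ.filter fun σ => ∀ x, σ (σ x) = x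

lemma mem_Iv {σ : Equiv.Perm (Fin p)} : σ ∈ Iv p ↔ ∀ x, σ (σ x) = x := by
  unfold Iv
  simp

/-- the main sum -/
noncomputable def SS (p : ℕ) : ℕ := ∑ σ ∈ Iv p, (F σ).card

open Classical in
/-- the self-converse digraphs -/
noncomputable def Scd (p : ℕ) : Finset (Arc p → Bool) :=
  univ.biUnion fun σ : Equiv.Perm (Fin p) => F σ

lemma hat_mem (σ : Equiv.Perm (Fin p)) : hat σ ∈ Iv p := mem_Iv.2 (hat_hat σ)

lemma real_gain {a c k b : ℕ} (h : a * 2 ^ ((p - 5) + b * (k - 2)) ≤ c) : (a : ℝ) ≤ c * wt p b k := by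
  have h1 : (a : ℝ) * 2 ^ ((p - 5) + b * (k - 2)) ≤ c := by exact_mod_cast h
  have e : wt p b k = 1 / 2 ^ ((p - 5) + b * (k - 2)) := by
    unfold wt
    rw [one_div_pow, ← pow_mul, pow_add]
    field_simp
  rw [e, mul_one_div, le_div_iff₀ (by positivity)]
  exact h1

/-- the upper bound -/
lemma upper (b : ℕ) (hb : 4 * b + 9 ≤ p) : ((Scd p).card : ℝ) ≤ SS p * (1 + eps p b) := by
  classical
  have h1 : (Scd p).card ≤ ∑ σ : Equiv.Perm (Fin p), (F σ).card := card_biUnion_le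
  have h2 : ∑ σ : Equiv.Perm (Fin p), (F σ).card = SS p + ∑ σ ∈ (Iv p)ᶜ, (F σ).card := by
    unfold SS
    rw [sum_add_sum_compl]
  have h3 : ∑ σ ∈ (Iv p)ᶜ, ((F σ).card : ℝ) ≤ SS p * eps p b := by
    rw [← sum_fiberwise_of_maps_to (s := (Iv p)ᶜ) (t := Iv p) (g := hat) fun σ _ => hat_mem σ]
    unfold SS
    push_cast
    rw [sum_mul]
    apply sum_le_sum
    intro ρ hρ
    have h4 : ∀ σ ∈ (Iv p)ᶜ.filter (fun σ => hat σ = ρ), ((F σ).card : ℝ) ≤
        (F ρ).card * wt p b (ρ⁻¹ * σ).support.card := by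
      intro σ hσ
      have h5 := gain_non σ (fun hc => mem_compl.1 (mem_filter.1 hσ).1 (mem_Iv.2 hc)) b hb
      rw [(mem_filter.1 hσ).2] at h5
      exact real_gain h5
    refine (sum_le_sum h4).trans ?_
    rw [← mul_sum]
    apply mul_le_mul_of_nonneg_left _ (Nat.cast_nonneg _)
    apply eps_shift
    intro h
    exact (mem_compl.1 (mem_filter.1 h).1) hρ
  have h4 : ((Scd p).card : ℝ) ≤ SS p + ∑ σ ∈ (Iv p)ᶜ, ((F σ).card : ℝ) := by
    have := h1.trans (le_of_eq h2)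
    exact_mod_cast this
  linarith

/-- the lower bound -/
lemma lower (b : ℕ) (hb : 4 * b + 9 ≤ p) : (SS p : ℝ) * (1 - eps p b) ≤ (Scd p).card := by
  classical
  -- the digraphs with exactly one involutive anti-automorphism
  set U : Equiv.Perm (Fin p) → Finset (Arc p → Bool) := fun σ =>
    F σ \ ((Iv p).erase σ).biUnion (fun τ => F σ ∩ F τ) with hU
  have h1 : (Iv p).biUnion U ⊆ Scd p := by
    intro c hc
    obtain ⟨σ, _, hσ⟩ := mem_biUnion.1 hc
    exact mem_biUnion.2 ⟨σ, mem_univ _, (mem_sdiff.1 hσ).1⟩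
  have h2 : ((Iv p).biUnion U).card = ∑ σ ∈ Iv p, (U σ).card := by
    apply card_biUnion
    intro σ hσ τ hτ hστ
    change Disjoint (U σ) (U τ)
    rw [disjoint_left]
    intro c hc hc'
    have g1 := mem_sdiff.1 hc
    have g2 := mem_sdiff.1 hc'
    exact g1.2 (mem_biUnion.2 ⟨τ, mem_erase.2 ⟨hστ.symm, hτ⟩, mem_inter.2 ⟨g1.1, g2.1⟩⟩)
  have h3 : ∀ σ ∈ Iv p, ((F σ).card : ℝ) * (1 - eps p b) ≤ (U σ).card := by
    intro σ hσ
    have h4 : (F σ).card ≤ (U σ).card + (((Iv p).erase σ).biUnion (fun τ => F σ ∩ F τ)).card :=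
      card_le_card_sdiff_add_card
    have h5 : (((Iv p).erase σ).biUnion (fun τ => F σ ∩ F τ)).card ≤
        ∑ τ ∈ (Iv p).erase σ, (F σ ∩ F τ).card := card_biUnion_le
    have h6 : ∑ τ ∈ (Iv p).erase σ, ((F σ ∩ F τ).card : ℝ) ≤ (F σ).card * eps p b := by
      have h7 : ∀ τ ∈ (Iv p).erase σ, ((F σ ∩ F τ).card : ℝ) ≤
          (F σ).card * wt p b (σ⁻¹ * τ).support.card := by
        intro τ hτ
        exact real_gain (gain_two (mem_Iv.1 hσ) (mem_Iv.1 (mem_of_mem_erase hτ))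
          (ne_of_mem_erase hτ).symm b hb)
      refine (sum_le_sum h7).trans ?_
      rw [← mul_sum]
      apply mul_le_mul_of_nonneg_left _ (Nat.cast_nonneg _)
      exact eps_shift b σ _ (notMem_erase σ _)
    have h8 : ((F σ).card : ℝ) ≤ (U σ).card + ∑ τ ∈ (Iv p).erase σ, ((F σ ∩ F τ).card : ℝ) := by
      have := h4.trans (Nat.add_le_add_left h5 _)
      exact_mod_cast this
    linarith
  have h4 : (SS p : ℝ) * (1 - eps p b) ≤ ∑ σ ∈ Iv p, ((U σ).card : ℝ) := by
    unfold SS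
    push_cast
    rw [sum_mul]
    exact sum_le_sum h3
  have h5 : ∑ σ ∈ Iv p, ((U σ).card : ℝ) ≤ (Scd p).card := by
    have := card_le_card h1
    rw [h2] at this
    exact_mod_cast this
  linarith

end Pool.Agent.K9h60.SC
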