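import Pool.Agent.K9h60.SC.Fin

/-!
# The isomorphism classes of the self-converse digraphs (helper60)
-/

set_option autoImplicit false

open Finset

namespace Pool.Agent.K9h60.SC

open Pool.Agent.Results.MP_b5e4d4_co.SubgroupFormula (Arc LDigraph SelfConverse s)

variable {p : ℕ}

lemma ias (σ : Equiv.Perm (Fin p)) (x : Fin p) : σ⁻¹ (σ x) = x := σ.symm_apply_apply x

lemma ais (σ : Equiv.Perm (Fin p)) (x : Fin p) : σ (σ⁻¹ x) = x := σ.apply_symm_apply x

/-- `D` and `D'` are isomorphic -/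
def IsoD (D D' : LDigraph p) : Prop := ∃ τ : Equiv.Perm (Fin p), ∀ u v, D.1 u v ↔ D'.1 (τ u) (τ v)

/-- isomorphism of self-converse digraphs -/
def isoSetoid (p : ℕ) : Setoid {D : LDigraph p // SelfConverse D} where
  r D D' := IsoD D.1 D'.1
  iseqv := ⟨fun D => ⟨1, fun u v => Iff.rfl⟩, fun ⟨τ, h⟩ => ⟨τ⁻¹, fun u v => by
    have := h (τ⁻¹ u) (τ⁻¹ v)
    rw [ais, ais] at this
    exact this.symm⟩, fun ⟨τ, h⟩ ⟨τ', h'⟩ => ⟨τ' * τ, fun u v => (h u v).trans (h' _ _)⟩⟩

/-- the number of the isomorphism classes of the self-converse digraphs of order `p` -/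
noncomputable def unl (p : ℕ) : ℕ := Nat.card (Quotient (isoSetoid p))

lemma smul_sc (τ : Equiv.Perm (Fin p)) (D : {D : LDigraph p // SelfConverse D}) :
    SelfConverse (p := p) ⟨fun u v => D.1.1 (τ⁻¹ u) (τ⁻¹ v), fun _ => D.1.2 _⟩ := by
  obtain ⟨σ, hσ⟩ := D.2
  refine ⟨τ * σ * τ⁻¹, fun u v => ?_⟩
  have h := hσ (τ⁻¹ u) (τ⁻¹ v)
  change D.1.1 (τ⁻¹ u) (τ⁻¹ v) ↔ D.1.1 (τ⁻¹ ((τ * σ * τ⁻¹) v)) (τ⁻¹ ((τ * σ * τ⁻¹) u))
  simp only [Equiv.Perm.mul_apply, ias]
  exact h

/-- the action of the permutations on the self-converse digraphs -/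
@[reducible] def act (p : ℕ) : MulAction (Equiv.Perm (Fin p)) {D : LDigraph p // SelfConverse D} where
  smul τ D := ⟨⟨fun u v => D.1.1 (τ⁻¹ u) (τ⁻¹ v), fun _ => D.1.2 _⟩, smul_sc τ D⟩
  one_smul _ := rfl
  mul_smul _ _ _ := rfl

attribute [local instance] act

lemma smul_eq_iff (τ : Equiv.Perm (Fin p)) (D D' : {D : LDigraph p // SelfConverse D}) :
    τ • D = D' ↔ ∀ u v, D.1.1 u v ↔ D'.1.1 (τ u) (τ v) := by
  constructor
  · rintro rfl u v
    change _ ↔ D.1.1 (τ⁻¹ (τ u)) (τ⁻¹ (τ v))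
    rw [ias, ias]
  · intro h
    apply Subtype.ext
    apply Subtype.ext
    funext u v
    apply propext
    change D.1.1 (τ⁻¹ u) (τ⁻¹ v) ↔ _
    rw [h, ais, ais]

lemma unl_eq : unl p = Nat.card (Quotient (MulAction.orbitRel (Equiv.Perm (Fin p))
    {D : LDigraph p // SelfConverse D})) := by
  unfold unl
  refine Nat.card_congr (Quotient.congrRight fun D D' => ?_)
  rw [MulAction.orbitRel_apply, MulAction.mem_orbit_iff]
  constructor
  · rintro ⟨τ, h⟩
    refine ⟨τ⁻¹, ?_⟩
    rw [inv_smul_eq_iff, eq_comm, smul_eq_iff]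
    exact h
  · rintro ⟨τ, h⟩
    refine ⟨τ⁻¹, ?_⟩
    rw [← smul_eq_iff, inv_smul_eq_iff]
    exact h.symm

/-- pairs of an automorphism and a digraph, and pairs of an anti-automorphism and a digraph -/
lemma pairs : Nat.card {x : Equiv.Perm (Fin p) × {D : LDigraph p // SelfConverse D} // x.1 • x.2 = x.2} =
    Nat.card {x : Equiv.Perm (Fin p) × {D : LDigraph p // SelfConverse D} // eB p x.2.1 ∈ F x.1} := by
  classical
  choose σ hσ using fun D : {D : LDigraph p // SelfConverse D} => D.2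
  refine Nat.card_congr ?_
  exact
    { toFun := fun x => ⟨(σ x.1.2 * x.1.1, x.1.2), anti_iff.2 fun u v => by
        rw [(smul_eq_iff _ _ _).1 x.2 u v]
        exact hσ x.1.2 _ _⟩
      invFun := fun x => ⟨((σ x.1.2)⁻¹ * x.1.1, x.1.2), (smul_eq_iff _ _ _).2 fun u v => by
        rw [anti_iff.1 x.2 u v]
        have h := hσ x.1.2 (((σ x.1.2)⁻¹ * x.1.1) u) (((σ x.1.2)⁻¹ * x.1.1) v)
        rw [h]
        change _ ↔ x.1.2.1.1 (σ x.1.2 (((σ x.1.2)⁻¹ * x.1.1) v)) (σ x.1.2 (((σ x.1.2)⁻¹ * x.1.1) u))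
        simp only [Equiv.Perm.mul_apply, ais]⟩
      left_inv := fun x => by
        apply Subtype.ext
        apply Prod.ext
        · exact inv_mul_cancel_left _ _
        · rfl
      right_inv := fun x => by
        apply Subtype.ext
        apply Prod.ext
        · exact mul_inv_cancel_left _ _
        · rfl }

lemma pairs_F : Nat.card {x : Equiv.Perm (Fin p) × {D : LDigraph p // SelfConverse D} // eB p x.2.1 ∈ F x.1} =
    ∑ σ : Equiv.Perm (Fin p), (F σ).card := by
  classical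
  have e : {x : Equiv.Perm (Fin p) × {D : LDigraph p // SelfConverse D} // eB p x.2.1 ∈ F x.1} ≃
      Σ σ : Equiv.Perm (Fin p), F σ :=
    { toFun := fun x => ⟨x.1.1, ⟨eB p x.1.2.1, x.2⟩⟩
      invFun := fun y => ⟨(y.1, ⟨(eB p).symm y.2.1, y.1, anti_iff.1 (by
        rw [Equiv.apply_symm_apply]; exact y.2.2)⟩), by
        change eB p ((eB p).symm y.2.1) ∈ F y.1
        rw [Equiv.apply_symm_apply]; exact y.2.2⟩
      left_inv := fun x => by
        apply Subtype.ext
        apply Prod.ext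
        · rfl
        · apply Subtype.ext
          exact (eB p).symm_apply_apply _
      right_inv := fun y => by
        obtain ⟨σ, c, hc⟩ := y
        simp only [Equiv.apply_symm_apply] }
  rw [Nat.card_congr e, Nat.card_eq_fintype_card, Fintype.card_sigma]
  simp only [Fintype.card_coe]

lemma pairs_fix : Nat.card {x : Equiv.Perm (Fin p) × {D : LDigraph p // SelfConverse D} // x.1 • x.2 = x.2} =
    unl p * p.factorial := by
  classical
  have : Finite {D : LDigraph p // SelfConverse D} :=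
    Finite.of_injective (fun D => eB p D.1) fun D D' h => Subtype.ext ((eB p).injective h)
  have : Fintype {D : LDigraph p // SelfConverse D} := Fintype.ofFinite _
  have h := MulAction.sum_card_fixedBy_eq_card_orbits_mul_card_group (Equiv.Perm (Fin p))
    {D : LDigraph p // SelfConverse D}
  rw [Fintype.card_perm, Fintype.card_fin, ← Nat.card_eq_fintype_card
    (α := Quotient (MulAction.orbitRel (Equiv.Perm (Fin p)) {D : LDigraph p // SelfConverse D})),
    ← unl_eq] at h
  rw [← h]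
  have e : {x : Equiv.Perm (Fin p) × {D : LDigraph p // SelfConverse D} // x.1 • x.2 = x.2} ≃
      Σ τ : Equiv.Perm (Fin p), MulAction.fixedBy {D : LDigraph p // SelfConverse D} τ :=
    { toFun := fun x => ⟨x.1.1, ⟨x.1.2, x.2⟩⟩
      invFun := fun y => ⟨(y.1, y.2.1), y.2.2⟩
      left_inv := fun x => rfl
      right_inv := fun y => rfl }
  rw [Nat.card_congr e, Nat.card_eq_fintype_card, Fintype.card_sigma]

/-- the number of the isomorphism classes -/
lemma unl_sum : (unl p : ℝ) * p.factorial = ∑ σ : Equiv.Perm (Fin p), ((F σ).card : ℝ) := by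
  have h := pairs (p := p)
  rw [pairs_F, pairs_fix] at h
  exact_mod_cast h

lemma est_unl (hp : 57 ≤ p) : main p ≤ p.factorial * (unl p : ℝ) ∧
    (p.factorial : ℝ) * unl p ≤ (1 + err p) * main p := by
  classical
  have hb : 4 * ((p - 9) / 4) + 9 ≤ p := by omega
  have h0 : (SS p : ℝ) = main p := SS_eq
  have h1 := sum_F ((p - 9) / 4) hb
  have h3 := eps_err hp
  rw [← unl_sum, h0] at h1
  have h5 := main_pos p
  have h6 : eps p ((p - 9) / 4) * main p ≤ err p * main p := mul_le_mul_of_nonneg_right h3 h5.le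
  constructor
  · rw [mul_comm, unl_sum, ← h0]
    unfold SS
    push_cast
    exact sum_le_sum_of_subset_of_nonneg (subset_univ _) fun _ _ _ => Nat.cast_nonneg _
  · rw [mul_comm]
    linarith

end Pool.Agent.K9h60.SC
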